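import Mathlib
import Pool.Agent.H20.PPDef
import Pool.Agent.H20.PP

set_option autoImplicit false

namespace Pool.Agent.Results.MP_bbb74b_al.NotPot

open Pool.Agent.H20.PP

theorem result (r : ℕ) (hr : 3 ≤ r) :
    ∃ w : FreeGroup (Fin r), PartPositive w ∧ ¬ PotPositive w := by
  obtain ⟨n, rfl⟩ : ∃ n, r = n + 3 := ⟨r - 3, by omega⟩
  exact main n

end Pool.Agent.Results.MP_bbb74b_al.NotPot
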